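import Pool.Agent.H50.ODG.Targets

/-!
# Two-orbit polyhedra with odd vertex degrees, row KNV: supplementary angles
-/

set_option autoImplicit false

namespace Pool.Agent.H5.ODG

open Pool.Agent.H57.CP Pool.Agent.H39.TO Pool.Agent.H39.OD Pool.Agent.H50.ODG

theorem le_of_half {a n : ℕ} (hn : 0 < n) (h : (1 : ℚ) / 2 ≤ (a : ℚ) / n) : n ≤ 2 * a := by
  have h1 : (0 : ℚ) < n := by exact_mod_cast hn
  have h2 : (1 : ℚ) / 2 * n ≤ a := (le_div_iff₀ h1).1 h
  have h3 : (n : ℚ) ≤ 2 * a := by linarith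
  exact_mod_cast h3

theorem key (g : ℚ) (h : (∃ n : ℕ, 2 ≤ n ∧ g = 1 / n) ∨ (∃ p : ℕ, Odd p ∧ 3 ≤ p ∧ g = 2 / p) ∨
    (∃ p : ℕ, ¬ 3 ∣ p ∧ 7 ≤ p ∧ g = 3 / p) ∨ (∃ p : ℕ, Odd p ∧ 7 ≤ p ∧ g = 4 / p))
    (hg : 1 / 2 ≤ g) : g = 1 / 2 ∨ g = 2 / 3 ∨ g = 4 / 7 := by
  rcases h with ⟨n, h2, e⟩ | ⟨p, h1, h2, e⟩ | ⟨p, h1, h2, e⟩ | ⟨p, h1, h2, e⟩
  · have h3 : n ≤ 2 * 1 := le_of_half (a := 1) (by omega) (by
      rw [Nat.cast_one, ← e]
      exact hg)
    have h4 : n = 2 := by omega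
    left
    rw [e, h4]
    norm_num
  · have h3 : p ≤ 2 * 2 := le_of_half (a := 2) (by omega) (by
      rw [Nat.cast_ofNat, ← e]
      exact hg)
    have h4 : p = 3 := by
      obtain ⟨k, hk⟩ := h1
      omega
    right
    left
    rw [e, h4]
    norm_num
  · have h3 : p ≤ 2 * 3 := le_of_half (a := 3) (by omega) (by
      rw [Nat.cast_ofNat, ← e]
      exact hg)
    omega
  · have h3 : p ≤ 2 * 4 := le_of_half (a := 4) (by omega) (by
      rw [Nat.cast_ofNat, ← e]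
      exact hg)
    have h4 : p = 7 := by
      obtain ⟨k, hk⟩ := h1
      omega
    right
    right
    rw [e, h4]
    norm_num

theorem pf_KNV (hKNL : T_KNL) : T_KNV := by
  intro u v u' v' f h1 h2
  obtain ⟨_, _, k1⟩ := hKNL _ _ _ h1
  obtain ⟨_, _, k2⟩ := hKNL _ _ _ h2
  rcases le_total (1 / 2) f with hf | hf
  · rcases key f k1 hf with h | h | h
    · exact Or.inl h
    · exact Or.inr (Or.inl h)
    · exact Or.inr (Or.inr (Or.inr (Or.inl h)))
  · rcases key (1 - f) k2 (by linarith) with h | h | h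
    · left
      linarith
    · right
      right
      left
      linarith
    · right
      right
      right
      right
      linarith

end Pool.Agent.H5.ODG
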