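import Pool.Agent.H50.ODG.Targets

/-!
# Two-orbit polyhedra with odd vertex degrees, row SYW: isometries which preserve the polyhedron
-/

set_option autoImplicit false

namespace Pool.Agent.H5.ODG

open Pool.Agent.H57.CP Pool.Agent.H39.TO Pool.Agent.H39.OD Pool.Agent.H50.ODG

theorem mem_of_image {α : Type*} {h : α → α} (hh : Function.Injective h) {S : Set α}
    (e : h '' S = S) (x : α) : h x ∈ S ↔ x ∈ S := by
  constructor
  · intro h1
    rw [← e] at h1
    obtain ⟨y, hy, e1⟩ := h1
    rw [← hh e1]
    exact hy
  · intro h1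
    rw [← e]
    exact ⟨x, h1, rfl⟩

theorem pf_SYW : T_SYW := by
  intro K g hg h
  have h1 : g '' K.V = K.V := congrArg Geo.V h
  have h2 : (Set.image g) '' K.E = K.E := congrArg Geo.E h
  have h3 : (Set.image (Set.image g)) '' K.F = K.F := congrArg Geo.F h
  have i1 : Function.Injective (g : H3 → H3) := g.injective
  have i2 : Function.Injective (Set.image (g : H3 → H3)) := Set.image_injective.2 i1
  have i3 : Function.Injective (Set.image (Set.image (g : H3 → H3))) := Set.image_injective.2 i2
  exact ⟨hg, fun x => mem_of_image i1 h1 x, fun e => mem_of_image i2 h2 e,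
    fun f => mem_of_image i3 h3 f⟩

end Pool.Agent.H5.ODG
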