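import Pool.Agent.H50.ODG.Targets

/-!
# Two-orbit polyhedra with odd vertex degrees, row UNA: congruent polyhedra have equal numbers
-/

set_option autoImplicit false

namespace Pool.Agent.H5.ODG

open Pool.Agent.H57.CP Pool.Agent.H39.TO Pool.Agent.H39.OD Pool.Agent.H50.ODG

theorem mk_symm (x y : V4) : mk x y = mk y x := by
  unfold mk
  ring

theorem ch_symm (x y : H3) : ch x y = ch y x := mk_symm _ _

theorem Cf_swap {u v w : ℚ} {x x' : H3} {n0 n1 n2 : V4} (h : Cf u v w x x' n0 n1 n2) :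
    Cf v u w x' x n1 n0 n2 where
  u0 := h.u1
  u1 := h.u0
  u2 := h.u2
  e02 := h.e12
  e12 := h.e02
  e01 := by rw [mk_symm]; exact h.e01
  xa := h.yb
  xc := h.yc
  yb := h.xa
  yc := h.xc
  xb := h.ya
  ya := h.xb

theorem core (hCHA : T_CHA) {u v w : ℚ} {x x' : H3} {n0 n1 n2 : V4} {u' v' w' : ℚ} {y y' : H3}
    {p0 p1 p2 : V4} (h : Cf u v w x x' n0 n1 n2) (h' : Cf u' v' w' y y' p0 p1 p2)
    (g : Equiv.Perm H3) (hg : IsIso g) (hx : g x = y) (hx' : g x' = y')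
    (hV : ∀ z ∈ (KA x x' (rf n0) (rf n1) (rf n2)).V, g (rf n0 z) = rf p0 (g z) ∧
      g (rf n1 z) = rf p1 (g z) ∧ g (rf n2 z) = rf p2 (g z)) :
    Nm u v w x x' n0 n1 u' v' w' y y' p0 p1 := by
  obtain ⟨c1, c2, c3, c4, c5, c6⟩ := hCHA _ _ _ _ _ _ _ _ h
  obtain ⟨d1, d2, d3, d4, d5, d6⟩ := hCHA _ _ _ _ _ _ _ _ h'
  have m1 : x ∈ (KA x x' (rf n0) (rf n1) (rf n2)).V := ⟨1, one_mem _, Or.inl rfl⟩
  have m2 : x' ∈ (KA x x' (rf n0) (rf n1) (rf n2)).V := ⟨1, one_mem _, Or.inr rfl⟩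
  have m3 : rf n0 x' ∈ (KA x x' (rf n0) (rf n1) (rf n2)).V :=
    ⟨rf n0, Subgroup.subset_closure (by simp), Or.inr rfl⟩
  have m4 : rf n1 x ∈ (KA x x' (rf n0) (rf n1) (rf n2)).V :=
    ⟨rf n1, Subgroup.subset_closure (by simp), Or.inl rfl⟩
  have g1 : g (rf n0 x') = rf p0 y' := by rw [(hV x' m2).1, hx']
  have g2 : g (rf n1 x) = rf p1 y := by rw [(hV x m1).2.1, hx]
  have g3 : g (rf n2 (rf n0 x')) = rf p2 (rf p0 y') := by rw [(hV _ m3).2.2, g1]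
  have g4 : g (rf n2 (rf n1 x)) = rf p2 (rf p1 y) := by rw [(hV _ m4).2.2, g2]
  have e0 : ch x x' = ch y y' := by
    rw [← hg x x', hx, hx']
  have e1 : ch x' (rf n0 x') = ch y' (rf p0 y') := by
    rw [← hg x' (rf n0 x'), hx', g1]
  have e2 : ch x (rf n1 x) = ch y (rf p1 y) := by
    rw [← hg x (rf n1 x), hx, g2]
  have e3 : ch (rf n0 x') (rf n2 (rf n0 x')) = ch (rf p0 y') (rf p2 (rf p0 y')) := by
    rw [← hg (rf n0 x') (rf n2 (rf n0 x')), g1, g3]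
  have e4 : ch (rf n1 x) (rf n2 (rf n1 x)) = ch (rf p1 y) (rf p2 (rf p1 y)) := by
    rw [← hg (rf n1 x) (rf n2 (rf n1 x)), g2, g4]
  have e5 : ch (rf n0 x') (rf n1 x) = ch (rf p0 y') (rf p1 y) := by
    rw [← hg (rf n0 x') (rf n1 x), g1, g2]
  have e6 : ch (rf n2 (rf n0 x')) (rf n1 x) = ch (rf p2 (rf p0 y')) (rf p1 y) := by
    rw [← hg (rf n2 (rf n0 x')) (rf n1 x), g3, g2]
  rw [c1, d1] at e1
  rw [c2, d2] at e2
  rw [c3, d3] at e3
  rw [c4, d4] at e4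
  rw [c5, d5] at e5
  rw [c6, d6] at e6
  have a1 : mk x'.1 n0 = mk y'.1 p0 := by
    have s1 := h.ya
    have s2 := h'.ya
    have s3 : (mk x'.1 n0 - mk y'.1 p0) * (mk x'.1 n0 + mk y'.1 p0) = 0 := by
      nlinarith [e1]
    rcases mul_eq_zero.1 s3 with s4 | s4
    · linarith
    · linarith
  have b1 : mk x.1 n1 = mk y.1 p1 := by
    have s1 := h.xb
    have s2 := h'.xb
    have s3 : (mk x.1 n1 - mk y.1 p1) * (mk x.1 n1 + mk y.1 p1) = 0 := by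
      nlinarith [e2]
    rcases mul_eq_zero.1 s3 with s4 | s4
    · linarith
    · linarith
  have na : mk y'.1 p0 ≠ 0 := ne_of_lt h'.ya
  have nb : mk y.1 p1 ≠ 0 := ne_of_lt h'.xb
  rw [a1] at e3 e5 e6
  rw [b1] at e4 e5 e6
  rw [e0] at e5 e6
  have ew : cn w = cn w' := by
    have s1 : (4 * mk y.1 p1 * mk y'.1 p0) * (cn w - cn w') = 0 := by linarith [e5]
    rcases mul_eq_zero.1 s1 with s2 | s2
    · exfalso
      exact (mul_ne_zero (mul_ne_zero (by norm_num) nb) na) s2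
    · linarith
  refine ⟨e0, a1, b1, ?_, ?_, ew, ?_⟩
  · have s1 : (8 * (mk y'.1 p0) ^ 2) * ((cn u) ^ 2 - (cn u') ^ 2) = 0 := by linarith [e3]
    rcases mul_eq_zero.1 s1 with s2 | s2
    · exfalso
      exact (mul_ne_zero (by norm_num) (pow_ne_zero 2 na)) s2
    · linarith
  · have s1 : (8 * (mk y.1 p1) ^ 2) * ((cn v) ^ 2 - (cn v') ^ 2) = 0 := by linarith [e4]
    rcases mul_eq_zero.1 s1 with s2 | s2
    · exfalso
      exact (mul_ne_zero (by norm_num) (pow_ne_zero 2 nb)) s2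
    · linarith
  · rw [ew] at e6
    have s1 : (8 * mk y.1 p1 * mk y'.1 p0) * (cn u * cn v - cn u' * cn v') = 0 := by
      linarith [e6]
    rcases mul_eq_zero.1 s1 with s2 | s2
    · exfalso
      exact (mul_ne_zero (mul_ne_zero (by norm_num) nb) na) s2
    · linarith

theorem pf_UNA (hCGF : T_CGF) (hCHA : T_CHA) : T_UNA := by
  intro u v w x x' n0 n1 n2 u' v' w' y y' p0 p1 p2 h h' hA hA' hC
  obtain ⟨g, hg, h1⟩ := hCGF _ _ _ _ _ _ _ _ _ _ hA hA' hC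
  rcases h1 with ⟨hx, hx', hV⟩ | ⟨hx, hx', hV⟩
  · exact Or.inl (core hCHA h h' g hg hx hx' hV)
  · exact Or.inr (core hCHA h (Cf_swap h') g hg hx hx' hV)

end Pool.Agent.H5.ODG
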